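import Pool.Agent.Lib.MP_6bc78b_nt.MS.QZ.Iface

/-! Project MS, Part QZ, module PWI: the pointwise inequality. -/

set_option autoImplicit false

open Complex Filter Topology MeasureTheory ArithmeticFunction

namespace Pool.Agent.Lib.MP_6bc78b_nt.MS.QZ.H65

open Pool.Agent.Lib.MP_6bc78b_nt.MS Pool.Agent.Lib.MP_6bc78b_nt.MS.P1
open Pool.Agent.Lib.MP_6bc78b_nt.MS.QZ

/-- One exponential against the product of truncated exponentials. -/
theorem exp_sum_le (hTAY : TayStatement) (j : ℕ) (w : ℕ → ℂ) (R : ℕ → ℝ) (K : ℕ → ℕ) (α : ℝ)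
    (hα : |α| ≤ 1) (hR : ∀ i, i < j → 1 ≤ R i ∧ 10 * R i ≤ K i) (hw : ∀ i, i < j → ‖w i‖ ≤ R i) :
    Real.exp (2 * α * ∑ i ∈ Finset.range j, (w i).re) ≤
      Real.exp (4 * ∑ i ∈ Finset.range j, Real.exp (-R i)) *
        ‖∏ i ∈ Finset.range j, te (K i) ((α : ℂ) * w i)‖ ^ 2 := by
  induction j with
  | zero => simp
  | succ j ih =>
    have h1 := ih (fun i hi => hR i (Nat.lt_succ_of_lt hi)) (fun i hi => hw i (Nat.lt_succ_of_lt hi))
    have h2 := hTAY (R j) α (K j) (w j) (hR j (Nat.lt_succ_self j)).1 hα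
      (hw j (Nat.lt_succ_self j)) (hR j (Nat.lt_succ_self j)).2
    rw [Finset.sum_range_succ, Finset.sum_range_succ, Finset.prod_range_succ, mul_add, mul_add,
      Real.exp_add, Real.exp_add, norm_mul, mul_pow]
    calc Real.exp (2 * α * ∑ i ∈ Finset.range j, (w i).re) * Real.exp (2 * α * (w j).re)
        ≤ (Real.exp (4 * ∑ i ∈ Finset.range j, Real.exp (-R i)) *
            ‖∏ i ∈ Finset.range j, te (K i) ((α : ℂ) * w i)‖ ^ 2) *
          (Real.exp (4 * Real.exp (-R j)) * ‖te (K j) ((α : ℂ) * w j)‖ ^ 2) :=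
          mul_le_mul h1 h2 (Real.exp_pos _).le (by positivity)
      _ = _ := by ring

/-- The inequality for the least bad index. -/
theorem main_le (hTAY : TayStatement) (j : ℕ) (w : ℕ → ℂ) (R : ℕ → ℝ) (K : ℕ → ℕ) (m : ℂ) (k : ℝ)
    (hk : 0 < k) (hk1 : k ≤ 1) (hR : ∀ i, i < j → 1 ≤ R i ∧ 10 * R i ≤ K i)
    (hw : ∀ i, i < j → ‖w i‖ ≤ R i) :
    ‖m‖ ^ (2 * k) ≤ Real.exp (4 * ∑ i ∈ Finset.range j, Real.exp (-R i)) *
        (k * ‖m * ∏ i ∈ Finset.range j, te (K i) (((1 - k : ℝ) : ℂ) * w i)‖ ^ 2 +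
          (1 - k) * ‖∏ i ∈ Finset.range j, te (K i) (((-k : ℝ) : ℂ) * w i)‖ ^ 2) := by
  set X : ℝ := ∑ i ∈ Finset.range j, (w i).re with hX
  set E : ℝ := Real.exp (4 * ∑ i ∈ Finset.range j, Real.exp (-R i)) with hE
  have h1 := exp_sum_le hTAY j w R K (1 - k) (by rw [abs_le]; constructor <;> linarith) hR hw
  have h2 := exp_sum_le hTAY j w R K (-k) (by rw [abs_le]; constructor <;> linarith) hR hw
  rw [← hX, ← hE] at h1 h2
  have ha : 0 ≤ ‖m‖ ^ 2 * Real.exp (2 * (1 - k) * X) := by positivity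
  have hb : 0 ≤ Real.exp (2 * (-k) * X) := (Real.exp_pos _).le
  have h3 := Real.geom_mean_le_arith_mean2_weighted hk.le (by linarith : (0 : ℝ) ≤ 1 - k) ha hb
    (by ring)
  have h4 : (‖m‖ ^ 2 * Real.exp (2 * (1 - k) * X)) ^ k * Real.exp (2 * (-k) * X) ^ (1 - k) =
      ‖m‖ ^ (2 * k) := by
    rw [Real.mul_rpow (by positivity) (Real.exp_pos _).le, ← Real.exp_mul, ← Real.exp_mul,
      mul_assoc, ← Real.exp_add]
    have h5 : 2 * (1 - k) * X * k + 2 * (-k) * X * (1 - k) = 0 := by ring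
    rw [h5, Real.exp_zero, mul_one, ← Real.rpow_natCast, ← Real.rpow_mul (norm_nonneg m)]
    norm_num
  rw [h4] at h3
  refine h3.trans ?_
  have h6 : ‖m‖ ^ 2 * Real.exp (2 * (1 - k) * X) ≤
      E * ‖m * ∏ i ∈ Finset.range j, te (K i) (((1 - k : ℝ) : ℂ) * w i)‖ ^ 2 := by
    rw [norm_mul, mul_pow]
    calc ‖m‖ ^ 2 * Real.exp (2 * (1 - k) * X)
        ≤ ‖m‖ ^ 2 * (E * ‖∏ i ∈ Finset.range j, te (K i) (((1 - k : ℝ) : ℂ) * w i)‖ ^ 2) :=
          mul_le_mul_of_nonneg_left h1 (by positivity)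
      _ = _ := by ring
  calc k * (‖m‖ ^ 2 * Real.exp (2 * (1 - k) * X)) + (1 - k) * Real.exp (2 * (-k) * X)
      ≤ k * (E * ‖m * ∏ i ∈ Finset.range j, te (K i) (((1 - k : ℝ) : ℂ) * w i)‖ ^ 2) +
        (1 - k) * (E * ‖∏ i ∈ Finset.range j, te (K i) (((-k : ℝ) : ℂ) * w i)‖ ^ 2) :=
        add_le_add (mul_le_mul_of_nonneg_left h6 hk.le)
          (mul_le_mul_of_nonneg_left h2 (by linarith))
    _ = _ := by ring

/-- There is a least bad index, or none. -/
theorem exists_index (J : ℕ) (w : ℕ → ℂ) (R : ℕ → ℝ) :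
    ∃ j, j ≤ J ∧ (∀ i, i < j → ‖w i‖ ≤ R i) ∧ (j < J → R j < ‖w j‖) := by
  classical
  by_cases h : ∃ i, i < J ∧ R i < ‖w i‖
  · refine ⟨Nat.find h, (Nat.find_spec h).1.le, ?_, fun _ => (Nat.find_spec h).2⟩
    intro i hi
    have h1 := Nat.find_min h hi
    by_contra h2
    exact h1 ⟨hi.trans (Nat.find_spec h).1, lt_of_not_ge h2⟩
  · refine ⟨J, le_rfl, ?_, fun hJ => absurd hJ (lt_irrefl J)⟩
    intro i hi
    by_contra h2
    exact h ⟨i, hi, lt_of_not_ge h2⟩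

/-- PWI. -/
theorem pwi (hTAY : TayStatement) : PwiStatement := by
  intro J w R K r m k hk hk1 hR
  obtain ⟨j, hjJ, hgood, hbad⟩ := exists_index J w R
  have h1 := main_le hTAY j w R K m k hk hk1 (fun i hi => hR i (lt_of_lt_of_le hi hjJ)) hgood
  set F : ℕ → ℝ := fun j =>
    (k * ‖m * ∏ i ∈ Finset.range j, te (K i) (((1 - k : ℝ) : ℂ) * w i)‖ ^ 2 +
      (1 - k) * ‖∏ i ∈ Finset.range j, te (K i) (((-k : ℝ) : ℂ) * w i)‖ ^ 2) with hF
  have hF0 : ∀ i, 0 ≤ F i := by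
    intro i
    have : (0 : ℝ) ≤ 1 - k := by linarith
    simp only [hF]
    positivity
  have hfac : 1 ≤ (if j < J then (‖w j‖ / R j) ^ (2 * r j) else (1 : ℝ)) := by
    split_ifs with hj
    · have hRj := (hR j hj).1
      have : 1 ≤ ‖w j‖ / R j := by
        rw [le_div_iff₀ (by linarith), one_mul]
        exact (hbad hj).le
      exact one_le_pow₀ this
    · exact le_rfl
  have hfac0 : ∀ i ∈ Finset.range (J + 1),
      0 ≤ F i * (if i < J then (‖w i‖ / R i) ^ (2 * r i) else (1 : ℝ)) := by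
    intro i _
    refine mul_nonneg (hF0 i) ?_
    split_ifs with hi
    · have hRi := (hR i hi).1
      have : 0 ≤ ‖w i‖ / R i := div_nonneg (norm_nonneg _) (by linarith)
      positivity
    · exact zero_le_one
  have hexp : Real.exp (4 * ∑ i ∈ Finset.range j, Real.exp (-R i)) ≤
      Real.exp (4 * ∑ i ∈ Finset.range J, Real.exp (-R i)) := by
    apply Real.exp_le_exp.mpr
    apply mul_le_mul_of_nonneg_left _ (by norm_num)
    exact Finset.sum_le_sum_of_subset_of_nonneg (Finset.range_subset_range.mpr hjJ)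
      (fun i _ _ => (Real.exp_pos _).le)
  calc ‖m‖ ^ (2 * k) ≤ Real.exp (4 * ∑ i ∈ Finset.range j, Real.exp (-R i)) * F j := h1
    _ ≤ Real.exp (4 * ∑ i ∈ Finset.range J, Real.exp (-R i)) * F j :=
        mul_le_mul_of_nonneg_right hexp (hF0 j)
    _ ≤ Real.exp (4 * ∑ i ∈ Finset.range J, Real.exp (-R i)) *
        (F j * (if j < J then (‖w j‖ / R j) ^ (2 * r j) else (1 : ℝ))) := by
        apply mul_le_mul_of_nonneg_left _ (Real.exp_pos _).le
        calc F j = F j * 1 := (mul_one _).symm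
          _ ≤ _ := mul_le_mul_of_nonneg_left hfac (hF0 j)
    _ ≤ _ := by
        apply mul_le_mul_of_nonneg_left _ (Real.exp_pos _).le
        exact Finset.single_le_sum
          (f := fun i => F i * (if i < J then (‖w i‖ / R i) ^ (2 * r i) else (1 : ℝ))) hfac0
          (Finset.mem_range.mpr (Nat.lt_succ_of_le hjJ))

end Pool.Agent.Lib.MP_6bc78b_nt.MS.QZ.H65
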